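import Pool.Agent.Lib_helper53.TP.Base

/-!
# Cochains of an origami, holomorphic forms of an origami, letters
-/

namespace Pool.Agent.TP

open Set Complex Finset

/-! ## Holomorphic forms on an origami made of parallelograms `(A, B)` -/

/-- The closed parallelogram with sides `A`, `B`. -/
def para (A B : ℂ) : Set ℂ := {z | ∃ x y : ℝ, 0 ≤ x ∧ x ≤ 1 ∧ 0 ≤ y ∧ y ≤ 1 ∧ z = x * A + y * B}

/-- The open parallelogram with sides `A`, `B`. -/
def opara (A B : ℂ) : Set ℂ := {z | ∃ x y : ℝ, 0 < x ∧ x < 1 ∧ 0 < y ∧ y < 1 ∧ z = x * A + y * B}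

section
variable {S : Type}

/-- `(a, b)` are the periods of a holomorphic form of the origami `(h, v)` made of parallelograms
`(A, B)`: `F s` is its primitive on the parallelogram `s`, with `F s 0 = 0`. -/
def HolO (h v : Equiv.Perm S) (A B : ℂ) (a b : S → ℂ) : Prop := ∃ F : S → ℂ → ℂ,
  (∀ s, ContinuousOn (F s) (para A B)) ∧ (∀ s, DifferentiableOn ℂ (F s) (opara A B)) ∧
  (∀ s, F s 0 = 0) ∧
  (∀ s, ∀ t : ℝ, 0 ≤ t → t ≤ 1 → F (h s) (t * B) = F s (A + t * B) - a s) ∧
  (∀ s, ∀ t : ℝ, 0 ≤ t → t ≤ 1 → F (v s) (t * A) = F s (B + t * A) - b s)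

/-! ## Cochains -/

/-- Pairs `(a, b)`: periods of the bottom sides and of the left sides. -/
abbrev Pr (S : Type) : Type := (S → ℝ) × (S → ℝ)

/-- Cocycles. -/
def ZO (h v : Equiv.Perm S) : Submodule ℝ (Pr S) where
  carrier := {u | ∀ s, u.1 s + u.2 (h s) = u.2 s + u.1 (v s)}
  add_mem' := by
    intro u w hu hw s
    simp only [Prod.fst_add, Prod.snd_add, Pi.add_apply]
    linear_combination hu s + hw s
  zero_mem' := by intro s; simp
  smul_mem' := by
    intro r u hu s
    simp only [Prod.smul_fst, Prod.smul_snd, Pi.smul_apply, smul_eq_mul]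
    linear_combination r * hu s

/-- Coboundaries. -/
def BO (h v : Equiv.Perm S) : Submodule ℝ (Pr S) where
  carrier := {u | ∃ f : S → ℝ, (∀ s, f (v (h s)) = f (h (v s))) ∧
    (∀ s, u.1 s = f (h s) - f s) ∧ ∀ s, u.2 s = f (v s) - f s}
  add_mem' := by
    rintro u w ⟨f, h1, h2, h3⟩ ⟨g, g1, g2, g3⟩
    refine ⟨f + g, fun s => ?_, fun s => ?_, fun s => ?_⟩
    · simp only [Pi.add_apply, h1, g1]
    · simp only [Prod.fst_add, Pi.add_apply, h2, g2]; ring
    · simp only [Prod.snd_add, Pi.add_apply, h3, g3]; ring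
  zero_mem' := ⟨0, by simp, by simp, by simp⟩
  smul_mem' := by
    rintro r u ⟨f, h1, h2, h3⟩
    refine ⟨r • f, fun s => ?_, fun s => ?_, fun s => ?_⟩
    · simp only [Pi.smul_apply, h1]
    · simp only [Prod.smul_fst, Pi.smul_apply, h2, smul_eq_mul]; ring
    · simp only [Prod.smul_snd, Pi.smul_apply, h3, smul_eq_mul]; ring

theorem BO_le_ZO (h v : Equiv.Perm S) : BO h v ≤ ZO h v := by
  rintro u ⟨f, h1, h2, h3⟩ s
  rw [h2, h3, h3, h2, h1]; ring

/-- The intersection form. -/
def om [Fintype S] (h v : Equiv.Perm S) (u w : Pr S) : ℝ :=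
  ∑ s, (u.1 s * w.2 (h s) - u.2 s * w.1 (v s))

/-- The action of the vertical multitwist minus the identity. -/
noncomputable def twV (v : Equiv.Perm S) (u : Pr S) : Pr S :=
  (fun s => ∑ k ∈ range (orderOf v), u.2 ((v ^ k) s), 0)

/-- The action of the horizontal multitwist minus the identity. -/
noncomputable def twH (h : Equiv.Perm S) (u : Pr S) : Pr S :=
  (0, fun s => ∑ k ∈ range (orderOf h), u.1 ((h ^ k) s))

/-- The change of periods when the left sides `B` are replaced by the diagonals `A + B`. -/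
def shear (h : Equiv.Perm S) (u : Pr S) : Pr S := (u.1, fun s => u.1 s + u.2 (h s))

/-- The change of periods when the left sides `B` are replaced by `n A + B`. -/
def shearN (h : Equiv.Perm S) (n : ℕ) (u : Pr S) : Pr S :=
  (u.1, fun s => ∑ k ∈ range n, u.1 ((h ^ k) s) + u.2 ((h ^ n) s))

/-- `shear` as a linear map. -/
def shearL (h : Equiv.Perm S) : Pr S →ₗ[ℝ] Pr S where
  toFun := shear h
  map_add' u w := by
    ext s <;> simp [shear]; ring
  map_smul' r u := by
    ext s <;> simp [shear]; ring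

/-- The exchange of the two coordinates. -/
def swapL : Pr S →ₗ[ℝ] Pr S where
  toFun u := (u.2, u.1)
  map_add' _ _ := rfl
  map_smul' _ _ := rfl

/-- A plane (modulo coboundaries) all of whose images contain a holomorphic form. -/
structure HTO (h v : Equiv.Perm S) (P : Submodule ℝ (Pr S)) : Prop where
  bo_le : BO h v ≤ P
  le_zo : P ≤ ZO h v
  two : ∃ u w : Pr S, P = Submodule.span ℝ {u, w} ⊔ BO h v
  hol : ∀ A B : ℂ, 0 < cross A B → ∃ a b : S → ℂ, HolO h v A B a b ∧ (a ≠ 0 ∨ b ≠ 0) ∧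
    ((fun s => (a s).re, fun s => (b s).re) : Pr S) ∈ P ∧
    ((fun s => (a s).im, fun s => (b s).im) : Pr S) ∈ P

/-- The tautological plane. -/
def tautO (h v : Equiv.Perm S) : Submodule ℝ (Pr S) :=
  Submodule.span ℝ {((fun _ => 1, fun _ => 0) : Pr S), ((fun _ => 0, fun _ => 1) : Pr S)} ⊔ BO h v

/-- `A` is the vector attached to a cocycle `u` whose bottom periods are `u.1 = g ∘ h - g`. -/
def IsA (h v : Equiv.Perm S) (u : Pr S) (A : S → ℝ) : Prop :=
  ∃ g : S → ℝ, (∀ x, g (h x) - g x = u.1 x) ∧ ∀ y, A y = u.2 y + g y - g (v y)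

/-- The class `U` attached to a function `κ` with sum zero. -/
def IsU (h v : Equiv.Perm S) (κ : S → ℝ) (U : Pr S) : Prop :=
  (∀ y, U.1 (v y) = κ y) ∧ ∀ x, U.2 (h x) - U.2 x = κ x - κ (v.symm x)

end

/-! ## Averages along the cycles of a permutation -/

section
variable {X : Type}

/-- The average of `w` along the cycle of `y`. -/
noncomputable def avg (T : Equiv.Perm X) (w : X → ℝ) (y : X) : ℝ :=
  (∑ k ∈ range (orderOf T), w ((T ^ k) y)) / orderOf T

/-- The sum over the cycles of `T` of `u(cycle) w(cycle) / length`. -/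
noncomputable def GG [Fintype X] (T : Equiv.Perm X) (u w : X → ℝ) : ℝ := ∑ y, u y * avg T w y

end

/-! ## Letters -/

/-- The total lengths. -/
def WW : ℕ → ℕ
  | 0 => 2
  | k + 1 => WW k + WW k ^ 6 * (WW k).factorial

/-- The lengths of the letters. -/
def len : ℕ → ℕ
  | 0 => 2
  | k + 1 => WW k ^ 6 * (WW k).factorial

instance (k : ℕ) : NeZero (WW k) := ⟨by
  induction k with
  | zero => simp [WW]
  | succ k ih => simp [WW]; omega⟩

/-- The linear functional `F_i`. -/
noncomputable def FF (i : ℕ) (U : ℕ → ℝ) : ℝ := ∑ k ∈ range i, (len k : ℝ) * (U k - U i)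

/-- A one-row origami whose row is divided into intervals, the letters `0, ..., j`, of lengths
`len 0, ..., len j`, such that `v` is a translation on every letter. -/
structure Lett {S : Type} (j : ℕ) (h v : Equiv.Perm S) (lab : S → ℕ) : Prop where
  cyc : ∀ x y : S, ∃ k : ℕ, (h ^ k) x = y
  le : ∀ x, lab x ≤ j
  card : ∀ i ≤ j, Nat.card {x // lab x = i} = len i
  first : ∀ x y, lab x = lab y → lab (h.symm x) ≠ lab x → lab (h.symm y) ≠ lab y → x = y
  trans : ∀ x, lab (h x) = lab x → v (h x) = h (v x)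

end Pool.Agent.TP
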