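import Pool.Agent.Lib_helper53.TP.Coho

/-!
# Base: moves between triangulated surfaces, rows of parallelograms, origamis
-/

namespace Pool.Agent.TP

open Set Complex

/-- A triangulated translation surface on an arbitrary finite set of darts. -/
structure PS where
  D : Type
  fin : Finite D
  ne : Nonempty D
  c : Comb D
  v : D → ℂ
  ok : IsTS c v

/-- Elementary moves: change of triangulation, or a continuous deformation with constant
combinatorics. -/
inductive Step : PS → PS → Prop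
  | iso (x y : PS) (h : IsIso x.c x.v y.c y.v) : Step x y
  | flip (D : Type) (fin : Finite D) (ne : Nonempty D) (c c' : Comb D) (v v' : D → ℂ)
      (ok : IsTS c v) (ok' : IsTS c' v') (d : D) (h : IsFlip c v d c' v') :
      Step ⟨D, fin, ne, c, v, ok⟩ ⟨D, fin, ne, c', v', ok'⟩
  | sub (x y : PS) (d : x.D) (θ : ℝ) (ι : x.D → y.D) (p q m m' k k' : y.D)
      (h : IsSubdiv x.c x.v d θ y.c y.v ι p q m m' k k') : Step x y
  | path (D : Type) (fin : Finite D) (ne : Nonempty D) (c : Comb D) (γ : ℝ → D → ℂ)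
      (hγ : Continuous γ) (ok : ∀ t ∈ Icc (0 : ℝ) 1, IsTS c (γ t)) :
      Step ⟨D, fin, ne, c, γ 0, ok 0 (by simp)⟩ ⟨D, fin, ne, c, γ 1, ok 1 (by simp)⟩

/-- The equivalence relation generated by the moves. -/
def Conn : PS → PS → Prop := Relation.EqvGen Step

theorem Conn.refl (x : PS) : Conn x x := Relation.EqvGen.refl x
theorem Conn.symm {x y : PS} (h : Conn x y) : Conn y x := Relation.EqvGen.symm _ _ h
theorem Conn.trans {x y z : PS} (h : Conn x y) (h' : Conn y z) : Conn x z :=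
  Relation.EqvGen.trans _ _ _ h h'
theorem Conn.of {x y : PS} (h : Step x y) : Conn x y := Relation.EqvGen.rel _ _ h

theorem Conn.iso {x y : PS} (h : IsIso x.c x.v y.c y.v) : Conn x y := Conn.of (Step.iso x y h)

theorem Conn.flip {D : Type} {fin : Finite D} {ne : Nonempty D} {c c' : Comb D} {v v' : D → ℂ}
    {ok : IsTS c v} {ok' : IsTS c' v'} {d : D} (h : IsFlip c v d c' v') :
    Conn ⟨D, fin, ne, c, v, ok⟩ ⟨D, fin, ne, c', v', ok'⟩ :=
  Conn.of (Step.flip D fin ne c c' v v' ok ok' d h)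

theorem Conn.path {D : Type} {fin : Finite D} {ne : Nonempty D} {c : Comb D} {v v' : D → ℂ}
    {ok : IsTS c v} {ok' : IsTS c v'} (γ : ℝ → D → ℂ) (hγ : Continuous γ)
    (h : ∀ t ∈ Icc (0 : ℝ) 1, IsTS c (γ t)) (h0 : γ 0 = v) (h1 : γ 1 = v') :
    Conn ⟨D, fin, ne, c, v, ok⟩ ⟨D, fin, ne, c, v', ok'⟩ := by
  subst h0; subst h1
  exact Conn.of (Step.path D fin ne c γ hγ h)

/-- The straight segment between two systems of edge vectors with the same combinatorics: only
the positivity has to be checked. -/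
theorem Conn.line {D : Type} {fin : Finite D} {ne : Nonempty D} {c : Comb D} {v v' : D → ℂ}
    {ok : IsTS c v} {ok' : IsTS c v'}
    (h : ∀ t ∈ Icc (0 : ℝ) 1, ∀ d, 0 < cross ((1 - t : ℝ) * v d + (t : ℝ) * v' d)
      ((1 - t : ℝ) * v (c.next d) + (t : ℝ) * v' (c.next d))) :
    Conn ⟨D, fin, ne, c, v, ok⟩ ⟨D, fin, ne, c, v', ok'⟩ := by
  refine Conn.path (fun t d => (1 - t : ℝ) * v d + (t : ℝ) * v' d) ?_ ?_ ?_ ?_
  · fun_prop
  · intro t ht
    refine ⟨fun d => ?_, fun d => ?_, fun d => h t ht d⟩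
    · simp only [ok.opp_neg d, ok'.opp_neg d]; ring
    · have h1 := ok.sum_zero d
      have h2 := ok'.sum_zero d
      linear_combination ((1 - t : ℝ) : ℂ) * h1 + ((t : ℝ) : ℂ) * h2
  · funext d; simp
  · funext d; simp

/-! ## Origamis and rows of parallelograms -/

section
variable {S : Type}

/-- Transitivity. -/
def Tr (h v : Equiv.Perm S) : Prop :=
  ∀ T : Set S, T.Nonempty → (∀ s ∈ T, h s ∈ T) → (∀ s ∈ T, v s ∈ T) → T = univ

/-- `next` for parallelograms cut by the diagonal: the lower triangle of `s` has the darts `(s,0)`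
(bottom side), `(s,1)` (right side), `(s,2)` (diagonal); the upper triangle has the darts `(s,3)`
(diagonal), `(s,4)` (top side), `(s,5)` (left side). -/
def rNext : S × Fin 6 → S × Fin 6
  | (s, 0) => (s, 1)
  | (s, 1) => (s, 2)
  | (s, 2) => (s, 0)
  | (s, 3) => (s, 4)
  | (s, 4) => (s, 5)
  | (s, 5) => (s, 3)

/-- `opp`: the right neighbour of `s` is `h s`, the top neighbour of `s` is `v s`. -/
def rOpp (h v : Equiv.Perm S) : S × Fin 6 → S × Fin 6
  | (s, 0) => (v.symm s, 4)
  | (s, 1) => (h s, 5)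
  | (s, 2) => (s, 3)
  | (s, 3) => (s, 2)
  | (s, 4) => (v s, 0)
  | (s, 5) => (h.symm s, 1)

/-- Edge vectors: `ℓ s` is the bottom side, `c s + i` the left side. -/
noncomputable def rVec (h v : Equiv.Perm S) (ℓ c : S → ℝ) : S × Fin 6 → ℂ
  | (s, 0) => (ℓ s : ℂ)
  | (s, 1) => (c (h s) : ℂ) + I
  | (s, 2) => -((c s : ℂ) + (ℓ (v s) : ℂ) + I)
  | (s, 3) => (c s : ℂ) + (ℓ (v s) : ℂ) + I
  | (s, 4) => -(ℓ (v s) : ℂ)
  | (s, 5) => -((c s : ℂ) + I)

/-- Edge vectors when all the parallelograms have bottom side `A` and left side `B`. -/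
def vecAB (A B : ℂ) : S × Fin 6 → ℂ
  | (_, 0) => A
  | (_, 1) => B
  | (_, 2) => -(A + B)
  | (_, 3) => A + B
  | (_, 4) => -A
  | (_, 5) => -B

/-- The combinatorial surface of `(h, v)`. -/
def rComb (h v : Equiv.Perm S) (tr : Tr h v) : Comb (S × Fin 6) where
  next := rNext
  opp := rOpp h v
  next3 := by
    rintro ⟨s, k⟩
    fin_cases k <;> rfl
  opp2 := by
    rintro ⟨s, k⟩
    fin_cases k <;> simp [rOpp]
  conn := by
    intro T hT hn ho
    have key : ∀ s k, (s, k) ∈ T → (s, (0 : Fin 6)) ∈ T := by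
      intro s k hk
      have h2 : ∀ s, (s, (2 : Fin 6)) ∈ T → (s, (0 : Fin 6)) ∈ T := fun s h => hn _ h
      have h1 : ∀ s, (s, (1 : Fin 6)) ∈ T → (s, (0 : Fin 6)) ∈ T := fun s h => h2 s (hn _ h)
      have h3 : ∀ s, (s, (3 : Fin 6)) ∈ T → (s, (0 : Fin 6)) ∈ T := fun s h => h2 s (ho _ h)
      have h5 : ∀ s, (s, (5 : Fin 6)) ∈ T → (s, (0 : Fin 6)) ∈ T := fun s h => h3 s (hn _ h)
      have h4 : ∀ s, (s, (4 : Fin 6)) ∈ T → (s, (0 : Fin 6)) ∈ T := fun s h => h5 s (hn _ h)
      fin_cases k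
      · exact hk
      · exact h1 s hk
      · exact h2 s hk
      · exact h3 s hk
      · exact h4 s hk
      · exact h5 s hk
    have g1 : ∀ s, (s, (0 : Fin 6)) ∈ T → (s, (1 : Fin 6)) ∈ T := fun s h => hn _ h
    have g2 : ∀ s, (s, (0 : Fin 6)) ∈ T → (s, (2 : Fin 6)) ∈ T := fun s h => hn _ (g1 s h)
    have g3 : ∀ s, (s, (0 : Fin 6)) ∈ T → (s, (3 : Fin 6)) ∈ T := fun s h => ho _ (g2 s h)
    have g4 : ∀ s, (s, (0 : Fin 6)) ∈ T → (s, (4 : Fin 6)) ∈ T := fun s h => hn _ (g3 s h)
    have g5 : ∀ s, (s, (0 : Fin 6)) ∈ T → (s, (5 : Fin 6)) ∈ T := fun s h => hn _ (g4 s h)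
    have hall : {s | (s, (0 : Fin 6)) ∈ T} = univ := by
      apply tr
      · obtain ⟨⟨s, k⟩, hs⟩ := hT
        exact ⟨s, key s k hs⟩
      · intro s hs
        exact key _ 5 (ho _ (g1 s hs))
      · intro s hs
        exact ho _ (g4 s hs)
    ext ⟨s, k⟩
    simp only [mem_univ, iff_true]
    have hs : (s, (0 : Fin 6)) ∈ T := by
      have : s ∈ {s | (s, (0 : Fin 6)) ∈ T} := by rw [hall]; trivial
      exact this
    fin_cases k
    · exact hs
    · exact g1 s hs
    · exact g2 s hs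
    · exact g3 s hs
    · exact g4 s hs
    · exact g5 s hs

/-- Rows of parallelograms of height one. -/
structure Rows (S : Type) where
  h : Equiv.Perm S
  v : Equiv.Perm S
  tr : Tr h v
  ℓ : S → ℝ
  c : S → ℝ
  pos : ∀ s, 0 < ℓ s
  con : ∀ s, ℓ s + c (h s) = c s + ℓ (v s)

theorem Rows.ok (x : Rows S) : IsTS (rComb x.h x.v x.tr) (rVec x.h x.v x.ℓ x.c) where
  opp_neg := by
    rintro ⟨s, k⟩
    fin_cases k <;> simp [rComb, rOpp, rVec]
  sum_zero := by
    rintro ⟨s, k⟩
    have h1 : ((x.ℓ s : ℝ) : ℂ) + x.c (x.h s) = x.c s + x.ℓ (x.v s) := by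
      exact_mod_cast x.con s
    fin_cases k <;> simp only [rComb, rNext, rVec]
    · linear_combination h1
    · linear_combination h1
    · linear_combination h1
    · ring
    · ring
    · ring
  pos := by
    rintro ⟨s, k⟩
    have h1 := x.con s
    have h2 := x.pos s
    have h3 := x.pos (x.v s)
    fin_cases k <;> simp [rComb, rNext, rVec, cross] <;> linarith

/-- The translation surface of rows of parallelograms. -/
noncomputable def Rows.ps [Finite S] [Nonempty S] (x : Rows S) : PS :=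
  ⟨S × Fin 6, inferInstance, inferInstance, rComb x.h x.v x.tr, rVec x.h x.v x.ℓ x.c, x.ok⟩

/-- Deformation of the lengths and of the twists of the rows. -/
theorem Rows.conn_line [Finite S] [Nonempty S] (x y : Rows S) (hh : y.h = x.h) (hv : y.v = x.v) :
    Conn x.ps y.ps := by
  obtain ⟨h, v, tr, ℓ, c, pos, con⟩ := x
  obtain ⟨h', v', tr', ℓ', c', pos', con'⟩ := y
  simp only at hh hv
  subst hh hv
  refine Conn.line ?_
  rintro t ⟨ht0, ht1⟩ d
  have key : ∀ a b : ℝ, 0 < a → 0 < b → 0 < (1 - t) * a + t * b := by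
    intro a b ha hb
    rcases eq_or_lt_of_le ht0 with h | h
    · subst h; linarith
    · have := mul_pos h hb
      have := mul_nonneg (sub_nonneg.2 ht1) ha.le
      linarith
  obtain ⟨s, k⟩ := d
  have e1 := con s
  have e2 := con' s
  have k1 := key _ _ (pos s) (pos' s)
  have k2 := key _ _ (pos (v' s)) (pos' (v' s))
  fin_cases k <;> simp [rComb, rNext, rVec, cross] <;> nlinarith [e1, e2, k1, k2]

theorem vecAB_ok (h v : Equiv.Perm S) (tr : Tr h v) {A B : ℂ} (hAB : 0 < cross A B) :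
    IsTS (rComb h v tr) (vecAB A B) where
  opp_neg := by
    rintro ⟨s, k⟩
    fin_cases k <;> simp [rComb, rOpp, vecAB]
  sum_zero := by
    rintro ⟨s, k⟩
    fin_cases k <;> simp only [rComb, rNext, vecAB] <;> ring
  pos := by
    rintro ⟨s, k⟩
    simp only [cross] at hAB
    fin_cases k <;> simp [rComb, rNext, vecAB, cross] <;> linarith

theorem cross_one_I : 0 < cross 1 I := by simp [cross]

/-- The square-tiled surface (origami) of `(h, v)`: unit squares, cut by diagonals. -/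
noncomputable def ori [Finite S] [Nonempty S] (h v : Equiv.Perm S) (tr : Tr h v) : PS :=
  ⟨S × Fin 6, inferInstance, inferInstance, rComb h v tr, vecAB 1 I, vecAB_ok h v tr cross_one_I⟩

/-- The origami as rows of parallelograms. -/
noncomputable def unitRows (h v : Equiv.Perm S) (tr : Tr h v) : Rows S :=
  ⟨h, v, tr, fun _ => 1, fun _ => 0, fun _ => one_pos, fun _ => by norm_num⟩

theorem rVec_unit (h v : Equiv.Perm S) : rVec h v (fun _ => 1) (fun _ => 0) = vecAB 1 I := by
  funext ⟨s, k⟩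
  fin_cases k <;> simp [rVec, vecAB]

theorem conn_unitRows [Finite S] [Nonempty S] (h v : Equiv.Perm S) (tr : Tr h v) :
    Conn (unitRows h v tr).ps (ori h v tr) := by
  refine Conn.iso ⟨Equiv.refl _, fun _ => rfl, fun _ => rfl, fun d => ?_⟩
  change vecAB 1 I d = rVec h v (fun _ => 1) (fun _ => 0) d
  rw [rVec_unit]

end

end Pool.Agent.TP
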