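import Pool.Agent.Lib_helper53.TP.Defs

/-!
# Internal form of the definitions of cohomology

The definitions used in the final statement are in `Stmt.lean`; these are the same ones, without
the named instances.
-/

namespace Pool.Agent.TP

open Set

section
variable (𝕜 : Type) [Field 𝕜] {D : Type} (c : Comb D)

/-- Coboundaries: `f d` is the value of a function of the vertices at the origin of the dart
`d`. -/
def B1 : Submodule 𝕜 (Z1 𝕜 c) where
  carrier := {u | ∃ f : D → 𝕜, (∀ d, f (c.opp d) = f (c.next d)) ∧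
    ∀ d, u.1 d = f (c.next d) - f d}
  add_mem' := by
    rintro a b ⟨f, h1, h2⟩ ⟨g, h3, h4⟩
    refine ⟨f + g, fun d => ?_, fun d => ?_⟩
    · simp only [Pi.add_apply, h1 d, h3 d]
    · simp only [Submodule.coe_add, Pi.add_apply, h2 d, h4 d]; ring
  zero_mem' := ⟨0, by simp, by simp⟩
  smul_mem' := by
    rintro r a ⟨f, h1, h2⟩
    refine ⟨r • f, fun d => ?_, fun d => ?_⟩
    · simp only [Pi.smul_apply, h1 d]
    · simp only [SetLike.val_smul, Pi.smul_apply, smul_eq_mul, h2 d]; ring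

/-- The first cohomology group. -/
abbrev H1 : Type := (Z1 𝕜 c) ⧸ (B1 𝕜 c)

end

/-- The genus. -/
noncomputable def genus {D : Type} (c : Comb D) : ℕ := Module.finrank ℝ (H1 ℝ c) / 2

section
variable {D : Type} (c : Comb D) (v : D → ℂ)

/-- The cocycles of periods of holomorphic one-forms. -/
noncomputable def HolZ : Submodule ℂ (Z1 ℂ c) where
  carrier := {u | IsHol c v u.1}
  add_mem' := fun hu hw => IsHol.add hu hw
  zero_mem' := IsHol.zero c v
  smul_mem' := fun r _ hu => IsHol.smul r hu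

/-- The space `H^{1,0}` of classes of holomorphic one-forms in `H^1(M, ℂ)`. -/
noncomputable def H10 : Submodule ℂ (H1 ℂ c) := (HolZ c v).map (B1 ℂ c).mkQ

/-- The complexification `P ⊗ ℂ` of a subspace of `H^1(M, ℝ)`, inside `H^1(M, ℂ)`. -/
noncomputable def cplx {c : Comb D} (P : Submodule ℝ (H1 ℝ c)) : Submodule ℂ (H1 ℂ c) :=
  Submodule.span ℂ {x | ∃ u : Z1 ℝ c, (B1 ℝ c).mkQ u ∈ P ∧ x = (B1 ℂ c).mkQ (toC u)}

/-- `P` is a Hodge-Teichmueller plane of the surface `(c, v)`. -/
def IsHT (P : Submodule ℝ (H1 ℝ c)) : Prop :=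
  Module.finrank ℝ P = 2 ∧ ∀ g : Matrix.SpecialLinearGroup (Fin 2) ℝ,
    Module.finrank ℂ (H10 c (fun d => act g (v d)) ⊓ cplx P : Submodule ℂ (H1 ℂ c)) = 1

variable {c v} in
/-- The tautological plane. -/
noncomputable def taut (h : IsTS c v) : Submodule ℝ (H1 ℝ c) :=
  Submodule.span ℝ {(B1 ℝ c).mkQ (reZ h), (B1 ℝ c).mkQ (imZ h)}

end

/-- The tautological plane is the only Hodge-Teichmueller plane of `y`. -/
def OnlyTaut (y : Surf) : Prop :=
  ∀ P : Submodule ℝ (H1 ℝ y.comb), IsHT y.comb y.vec P ↔ P = taut y.ok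

end Pool.Agent.TP
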