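import Pool.Agent.Lib_helper53.TP.Stmt
import Pool.Agent.Lib_helper53.TP.Coho

namespace Pool.Agent.HTP

open Set Pool.Agent.TP

theorem H10_eq {D : Type} (c : Comb D) (v : D → ℂ) : (H10 c v : Set (H1 ℂ c)) =
    (TP.H10 c v : Set (TP.H1 ℂ c)) := rfl

theorem genus_eq {D : Type} (c : Comb D) : genus c = TP.genus c := rfl

theorem isHT_iff {D : Type} (c : Comb D) (v : D → ℂ) (P : Submodule ℝ (H1 ℝ c)) :
    IsHT c v P ↔ TP.IsHT c v P := Iff.rfl

theorem onlyTaut_iff (y : Surf) : OnlyTaut y ↔ TP.OnlyTaut y := Iff.rfl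

end Pool.Agent.HTP
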