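import Mathlib

/-!
# Translation surfaces, Hodge-Teichmueller planes (definitions)

A translation surface is given by a triangulation: finitely many positively oriented triangles in
the plane, glued along parallel edges of the same length by translations.  A dart is a side of a
triangle with its boundary orientation; `next` turns around the triangle, `opp` is the side it is
glued to, and `v d` is the edge vector of the dart `d`.
-/

namespace Pool.Agent.TP

open Set

/-- Combinatorics of a connected closed oriented triangulated surface: `D` is the set of darts. -/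
structure Comb (D : Type) where
  next : D → D
  opp : D → D
  next3 : ∀ d, next (next (next d)) = d
  opp2 : ∀ d, opp (opp d) = d
  conn : ∀ T : Set D, T.Nonempty → (∀ d ∈ T, next d ∈ T) → (∀ d ∈ T, opp d ∈ T) → T = univ

/-- The cross product of two plane vectors. -/
def cross (z w : ℂ) : ℝ := z.re * w.im - z.im * w.re

/-- `v` is a family of edge vectors: it turns the combinatorial surface into a translation surface
(all triangles are nondegenerate and positively oriented). -/
structure IsTS {D : Type} (c : Comb D) (v : D → ℂ) : Prop where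
  opp_neg : ∀ d, v (c.opp d) = - v d
  sum_zero : ∀ d, v d + v (c.next d) + v (c.next (c.next d)) = 0
  pos : ∀ d, 0 < cross (v d) (v (c.next d))

/-- The area of the surface (each triangle is counted three times in the sum over the darts). -/
noncomputable def area {D : Type} [Fintype D] (c : Comb D) (v : D → ℂ) : ℝ :=
  (∑ d, cross (v d) (v (c.next d))) / 6

/-- Triangulated translation surfaces of area one with darts `Fin n`. -/
def Surf : Type :=
  Σ σ : (Σ n : ℕ, Comb (Fin n)), {v : Fin σ.1 → ℂ // IsTS σ.2 v ∧ area σ.2 v = 1}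

noncomputable instance : TopologicalSpace Surf := inferInstanceAs (TopologicalSpace
  (Σ σ : (Σ n : ℕ, Comb (Fin n)), {v : Fin σ.1 → ℂ // IsTS σ.2 v ∧ area σ.2 v = 1}))

/-- The combinatorial surface underlying `x`. -/
def Surf.comb (x : Surf) : Comb (Fin x.1.1) := x.1.2

/-- The edge vectors of `x`. -/
def Surf.vec (x : Surf) : Fin x.1.1 → ℂ := x.2.1

theorem Surf.ok (x : Surf) : IsTS x.comb x.vec := x.2.2.1

/-- Two triangulated translation surfaces differ by a renaming of the darts. -/
def IsIso {D D' : Type} (c : Comb D) (v : D → ℂ) (c' : Comb D') (v' : D' → ℂ) : Prop :=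
  ∃ e : D ≃ D', (∀ d, c'.next (e d) = e (c.next d)) ∧ (∀ d, c'.opp (e d) = e (c.opp d)) ∧
    ∀ d, v' (e d) = v d

/-- `(c', v')` arises from `(c, v)` by replacing the diagonal `d` of the quadrilateral formed by
the triangles of `d` and of `c.opp d` by the other diagonal. -/
structure IsFlip {D : Type} (c : Comb D) (v : D → ℂ) (d : D) (c' : Comb D) (v' : D → ℂ) :
    Prop where
  opp_eq : ∀ x, c'.opp x = c.opp x
  n1 : c'.next (c.next (c.opp d)) = d
  n2 : c'.next d = c.next (c.next d)
  n3 : c'.next (c.next (c.next d)) = c.next (c.opp d)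
  n4 : c'.next (c.next d) = c.opp d
  n5 : c'.next (c.opp d) = c.next (c.next (c.opp d))
  n6 : c'.next (c.next (c.next (c.opp d))) = c.next d
  rest : ∀ x, x ≠ d → x ≠ c.next d → x ≠ c.next (c.next d) → x ≠ c.opp d →
    x ≠ c.next (c.opp d) → x ≠ c.next (c.next (c.opp d)) → c'.next x = c.next x
  vec : ∀ x, x ≠ d → x ≠ c.opp d → v' x = v x

/-- `(c', v')` arises from `(c, v)` by adding the point `O` which divides the side `d` in the
ratio `θ : 1 - θ`, and joining it to the opposite vertices of the two adjacent triangles.  The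
dart `d` from `A` to `C` becomes the dart `ι d` from `A` to `O`, and `ι (opp d)` goes from `C` to
`O`; the new darts are `p` from `O` to `C`, `q` from `O` to `A`, `m` and `m'` between `O` and the
third vertex of the triangle of `d`, `k` and `k'` between `O` and the third vertex of the triangle
of `opp d`. -/
structure IsSubdiv {D D' : Type} (c : Comb D) (v : D → ℂ) (d : D) (θ : ℝ) (c' : Comb D')
    (v' : D' → ℂ) (ι : D → D') (p q m m' k k' : D') : Prop where
  inj : Function.Injective ι
  cover : ∀ x, x ∈ range ι ∨ x = p ∨ x = q ∨ x = m ∨ x = m' ∨ x = k ∨ x = k'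
  fresh : ∀ x, ι x ≠ p ∧ ι x ≠ q ∧ ι x ≠ m ∧ ι x ≠ m' ∧ ι x ≠ k ∧ ι x ≠ k'
  distinct : [p, q, m, m', k, k'].Nodup
  n1 : c'.next (ι d) = m
  n2 : c'.next m = ι (c.next (c.next d))
  n3 : c'.next (ι (c.next (c.next d))) = ι d
  n4 : c'.next p = ι (c.next d)
  n5 : c'.next (ι (c.next d)) = m'
  n6 : c'.next m' = p
  n7 : c'.next (ι (c.opp d)) = k
  n8 : c'.next k = ι (c.next (c.next (c.opp d)))
  n9 : c'.next (ι (c.next (c.next (c.opp d)))) = ι (c.opp d)
  n10 : c'.next q = ι (c.next (c.opp d))
  n11 : c'.next (ι (c.next (c.opp d))) = k'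
  n12 : c'.next k' = q
  rest : ∀ x, x ≠ d → x ≠ c.next d → x ≠ c.next (c.next d) → x ≠ c.opp d →
    x ≠ c.next (c.opp d) → x ≠ c.next (c.next (c.opp d)) → c'.next (ι x) = ι (c.next x)
  o1 : c'.opp (ι d) = q
  o2 : c'.opp p = ι (c.opp d)
  o3 : c'.opp m = m'
  o4 : c'.opp k = k'
  orest : ∀ x, x ≠ d → x ≠ c.opp d → c'.opp (ι x) = ι (c.opp x)
  ratio : 0 < θ ∧ θ < 1
  vec_d : v' (ι d) = (θ : ℂ) * v d
  vec : ∀ x, x ≠ d → x ≠ c.opp d → v' (ι x) = v x

/-- Elementary changes of the triangulation: renaming, flip, subdivision of an edge.  They do not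
change the underlying translation surface (up to marked regular points). -/
inductive Elem : Surf → Surf → Prop
  | iso (x y : Surf) (h : IsIso x.comb x.vec y.comb y.vec) : Elem x y
  | flip (n : ℕ) (c c' : Comb (Fin n)) (v v' : Fin n → ℂ) (hv : IsTS c v ∧ area c v = 1)
      (hv' : IsTS c' v' ∧ area c' v' = 1) (d : Fin n) (h : IsFlip c v d c' v') :
      Elem ⟨⟨n, c⟩, ⟨v, hv⟩⟩ ⟨⟨n, c'⟩, ⟨v', hv'⟩⟩
  | sub (x y : Surf) (d : Fin x.1.1) (θ : ℝ) (ι : Fin x.1.1 → Fin y.1.1)
      (p q m m' k k' : Fin y.1.1)
      (h : IsSubdiv x.comb x.vec d θ y.comb y.vec ι p q m m' k k') : Elem x y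

/-- The space of translation surfaces of area one: the quotient of the space of triangulated
surfaces by the elementary changes of the triangulation, with the quotient topology.  Its
connected components are the connected components of the strata. -/
abbrev Moduli : Type := Quot Elem

/-! ## Cohomology -/

section
variable (𝕜 : Type) [Field 𝕜] {D : Type} (c : Comb D)

/-- Cocycles of the triangulation. -/
def Z1 : Submodule 𝕜 (D → 𝕜) where
  carrier := {u | (∀ d, u (c.opp d) = - u d) ∧ ∀ d, u d + u (c.next d) + u (c.next (c.next d)) = 0}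
  add_mem' := by
    rintro a b ⟨h1, h2⟩ ⟨h3, h4⟩
    refine ⟨fun d => ?_, fun d => ?_⟩
    · simp only [Pi.add_apply, h1 d, h3 d]; ring
    · have := h2 d; have := h4 d
      simp only [Pi.add_apply]
      linear_combination h2 d + h4 d
  zero_mem' := by simp
  smul_mem' := by
    rintro r a ⟨h1, h2⟩
    refine ⟨fun d => ?_, fun d => ?_⟩
    · simp only [Pi.smul_apply, smul_eq_mul, h1 d]; ring
    · simp only [Pi.smul_apply, smul_eq_mul]
      linear_combination r * h2 d

end

/-! ## Holomorphic one-forms -/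

section
variable {D : Type} (c : Comb D) (v : D → ℂ)

/-- The closed triangle of the dart `d`, placed so that `d` starts at `0`. -/
def Tri (d : D) : Set ℂ := convexHull ℝ {0, v d, v d + v (c.next d)}

/-- `u` is the family of periods, along the darts, of a holomorphic one-form of the Riemann
surface: on each closed triangle the form has a continuous primitive `F d`, holomorphic inside,
normalised by `F d 0 = 0`, and these primitives match. -/
def IsHol (u : D → ℂ) : Prop := ∃ F : D → ℂ → ℂ,
  (∀ d, ContinuousOn (F d) (Tri c v d)) ∧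
  (∀ d, DifferentiableOn ℂ (F d) (interior (Tri c v d))) ∧
  (∀ d, F d 0 = 0) ∧ (∀ d, F d (v d) = u d) ∧
  (∀ d, ∀ z ∈ Tri c v d, F (c.next d) (z - v d) = F d z - u d) ∧
  (∀ d, ∀ z ∈ segment ℝ 0 (v d), F (c.opp d) (z - v d) = F d z - u d)

theorem IsHol.zero : IsHol c v 0 :=
  ⟨fun _ _ => 0, fun _ => continuousOn_const, fun _ => differentiableOn_const _, by simp, by simp,
    by simp, by simp⟩

variable {c v} in
theorem IsHol.add {u w : D → ℂ} (hu : IsHol c v u) (hw : IsHol c v w) : IsHol c v (u + w) := by
  obtain ⟨F, h1, h2, h3, h4, h5, h6⟩ := hu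
  obtain ⟨G, g1, g2, g3, g4, g5, g6⟩ := hw
  refine ⟨fun d z => F d z + G d z, fun d => (h1 d).add (g1 d), fun d => (h2 d).add (g2 d),
    fun d => by simp [h3, g3], fun d => by simp [h4, g4], fun d z hz => ?_, fun d z hz => ?_⟩
  · simp only [h5 d z hz, g5 d z hz, Pi.add_apply]; ring
  · simp only [h6 d z hz, g6 d z hz, Pi.add_apply]; ring

variable {c v} in
theorem IsHol.smul {u : D → ℂ} (r : ℂ) (hu : IsHol c v u) : IsHol c v (r • u) := by
  obtain ⟨F, h1, h2, h3, h4, h5, h6⟩ := hu
  refine ⟨fun d z => r * F d z, fun d => continuousOn_const.mul (h1 d),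
    fun d => (h2 d).const_mul r, fun d => by simp [h3], fun d => by simp [h4],
    fun d z hz => ?_, fun d z hz => ?_⟩
  · simp only [h5 d z hz, Pi.smul_apply, smul_eq_mul]; ring
  · simp only [h6 d z hz, Pi.smul_apply, smul_eq_mul]; ring

/-- A real cocycle seen as a complex cocycle. -/
noncomputable def toC {c : Comb D} (u : Z1 ℝ c) : Z1 ℂ c :=
  ⟨fun d => (u.1 d : ℂ), fun d => by simp [u.2.1 d], fun d => by
    have := congrArg (fun x : ℝ => (x : ℂ)) (u.2.2 d)
    simpa using this⟩

/-- The linear action of `SL(2, ℝ)` on the plane. -/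
def act (g : Matrix.SpecialLinearGroup (Fin 2) ℝ) (z : ℂ) : ℂ :=
  ⟨g.1 0 0 * z.re + g.1 0 1 * z.im, g.1 1 0 * z.re + g.1 1 1 * z.im⟩

variable {c v} in
/-- The cocycle of the form `Re ω`. -/
def reZ (h : IsTS c v) : Z1 ℝ c :=
  ⟨fun d => (v d).re, fun d => by simp [h.opp_neg d],
    fun d => by simpa using congrArg Complex.re (h.sum_zero d)⟩

variable {c v} in
/-- The cocycle of the form `Im ω`. -/
def imZ (h : IsTS c v) : Z1 ℝ c :=
  ⟨fun d => (v d).im, fun d => by simp [h.opp_neg d],
    fun d => by simpa using congrArg Complex.im (h.sum_zero d)⟩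

end

/-- `y` is tiled by squares: all the edge vectors belong to a square lattice `t ℤ[i]`. -/
def SquareTiled (y : Surf) : Prop :=
  ∃ t : ℝ, 0 < t ∧ ∀ d, ∃ m n : ℤ, y.vec d = (t : ℂ) * ((m : ℂ) + (n : ℂ) * Complex.I)

end Pool.Agent.TP
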