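import Pool.Agent.Lib_helper53.TP.B.OMG
import Pool.Agent.Lib_helper53.TP.B.QOM
import Pool.Agent.Lib_helper53.TP.B.POS
import Pool.Agent.Lib_helper53.TP.B.NIV
import Pool.Agent.Lib_helper53.TP.B.HSW
import Pool.Agent.Lib_helper53.TP.B.HRC
import Pool.Agent.Lib_helper53.TP.B.HTT
import Pool.Agent.Lib_helper53.TP.B.AVC
import Pool.Agent.Lib_helper53.TP.B.TWF
import Pool.Agent.Lib_helper53.TP.B.UKA
import Pool.Agent.Lib_helper53.TP.B.NDG
import Pool.Agent.Lib_helper53.TP.B.BMT
import Pool.Agent.Lib_helper53.TP.B.LCN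
import Pool.Agent.Lib_helper53.TP.B.LNK
import Pool.Agent.Lib_helper53.TP.B.FIN
import Pool.Agent.Lib_helper53.TP.B.DFN

namespace Pool.Agent.TP

open Set Complex Finset

section
variable {S : Type} [Fintype S] [Nonempty S]

/-- The class of `Im`. -/
def eO (S : Type) : Pr S := (fun _ => 0, fun _ => 1)

theorem eO_mem {h v : Equiv.Perm S} : eO S ∈ ZO h v := by
  intro s; simp [eO]

theorem om_eO {h v : Equiv.Perm S} (u : Pr S) : om h v u (eO S) = ∑ s, u.1 s := by
  simp [om, eO]

/-- Powers of `shearL` preserve everything. -/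
theorem hto_pow {S : Type} [Fintype S] {h v : Equiv.Perm S} {P : Submodule ℝ (Pr S)}
    (H : HTO h v P) (n : ℕ) :
    HTO h (v * h ^ n) (P.map (shearL h ^ n)) := by
  induction n with
  | zero =>
    have : P.map (shearL h ^ 0) = P := by
      rw [pow_zero]; exact Submodule.map_id P
    rw [this, pow_zero, mul_one]; exact H
  | succ n ih =>
    have h1 := hto_rec ih
    have h2 : v * h ^ n * h = v * h ^ (n + 1) := by rw [pow_succ, mul_assoc]
    have h3 : (P.map (shearL h ^ n)).map (shearL h) = P.map (shearL h ^ (n + 1)) := by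
      rw [← Submodule.map_comp, pow_succ']; rfl
    rw [h2, h3] at h1
    exact h1

theorem shearN_mem {S : Type} {h v : Equiv.Perm S} {u : Pr S} (hu : u ∈ ZO h v) (n : ℕ) :
    shearN h n u ∈ ZO h (v * h ^ n) := by
  rw [← shearL_pow]
  induction n with
  | zero => simpa using hu
  | succ n ih =>
    have h2 : v * h ^ n * h = v * h ^ (n + 1) := by rw [pow_succ, mul_assoc]
    have h3 := shear_mem ih
    rw [h2] at h3
    have h4 : (shearL h ^ (n + 1)) u = shear h ((shearL h ^ n) u) := by rw [pow_succ']; rfl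
    rw [h4]
    exact h3

theorem om_shearN {S : Type} [Fintype S] {h v : Equiv.Perm S} {u w : Pr S} (hu : u ∈ ZO h v)
    (hw : w ∈ ZO h v) (n : ℕ) :
    om h (v * h ^ n) (shearN h n u) (shearN h n w) = om h v u w := by
  induction n with
  | zero =>
    rw [← shearL_pow, ← shearL_pow]; simp
  | succ n ih =>
    have h2 : v * h ^ n * h = v * h ^ (n + 1) := by rw [pow_succ, mul_assoc]
    rw [← ih, ← om_shear (shearN_mem hu n) (shearN_mem hw n), h2]
    congr 1
    · rw [← shearL_pow, ← shearL_pow, pow_succ']; rfl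
    · rw [← shearL_pow, ← shearL_pow, pow_succ']; rfl

/-- All the horizontal periods sum to zero, unless `P` is tautological. -/
theorem sum_fst_zero {h v : Equiv.Perm S} (cyc : ∀ x y : S, ∃ k : ℕ, (h ^ k) x = y)
    {P : Submodule ℝ (Pr S)} (H : HTO h v P) (hne : eO S ∉ P) {u : Pr S} (hu : u ∈ P) :
    ∑ s, u.1 s = 0 := by
  by_contra hne0
  apply hne
  have h1 := hto_twV (hto_swap H) (swapL u) (Submodule.mem_map_of_mem hu)
  obtain ⟨w, hw, hwe⟩ := h1
  have e1 : w = (0, fun s => ∑ k ∈ range (orderOf h), u.1 ((h ^ k) s)) := by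
    have := congrArg swapL hwe
    exact this
  set κ : S → ℝ := fun s => ∑ k ∈ range (orderOf h), u.1 ((h ^ k) s) with hκ
  have hinv : ∀ s, κ (h s) = κ s := by
    intro s
    have hpos : 0 < orderOf h := orderOf_pos h
    obtain ⟨m, hm⟩ : ∃ m, orderOf h = m + 1 := ⟨orderOf h - 1, by omega⟩
    simp only [hκ]
    have e2 : ∀ k, (h ^ k) (h s) = (h ^ (k + 1)) s := by
      intro k; rw [pow_succ]; rfl
    simp only [e2]
    rw [hm, Finset.sum_range_succ, Finset.sum_range_succ' (fun k => u.1 ((h ^ k) s)), ← hm,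
      pow_orderOf_eq_one, pow_zero]
  have hconst : ∀ s t, κ s = κ t := by
    intro s t
    obtain ⟨k, hk⟩ := cyc s t
    rw [← hk]
    induction k generalizing t with
    | zero => simp
    | succ k ih =>
      rw [pow_succ', Equiv.Perm.mul_apply, hinv]
      exact ih _ rfl
  obtain ⟨s0⟩ := ‹Nonempty S›
  have hsum : ∑ s, κ s = orderOf h * ∑ s, u.1 s := by
    simp only [hκ]
    rw [Finset.sum_comm]
    have : ∀ k ∈ range (orderOf h), ∑ s, u.1 ((h ^ k) s) = ∑ s, u.1 s := fun k _ =>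
      Equiv.sum_comp (h ^ k) u.1
    rw [Finset.sum_congr rfl this, Finset.sum_const, card_range, nsmul_eq_mul]
  have hκ0 : κ s0 ≠ 0 := by
    intro h0
    have : ∑ s, κ s = 0 := Finset.sum_eq_zero fun s _ => by rw [hconst s s0, h0]
    rw [hsum] at this
    have hpos : (0 : ℝ) < orderOf h := by exact_mod_cast orderOf_pos h
    rcases mul_eq_zero.1 this with h | h
    · exact hpos.ne' h
    · exact hne0 h
  have e3 : eO S = (κ s0)⁻¹ • w := by
    rw [e1]
    ext s
    · simp [eO]
    · have := hconst s s0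
      simp only [eO, Prod.smul_snd, Pi.smul_apply, smul_eq_mul]
      rw [this, inv_mul_cancel₀ hκ0]
  rw [e3]
  exact P.smul_mem _ hw

/-- The coefficients of `κ_r`. -/
noncomputable def kf (r : ℕ) (i : ℕ) : ℝ :=
  if i < r then (len i : ℝ) else if i = r then -∑ k ∈ range r, (len k : ℝ) else 0

omit [Fintype S] [Nonempty S] in
theorem kf_sum {j r : ℕ} (hr : r ≤ j) (g : ℕ → ℝ) :
    ∑ i ∈ range (j + 1), kf r i * g i = ∑ i ∈ range r, (len i : ℝ) * (g i - g r) := by
  have h1 : ∑ i ∈ range (j + 1), kf r i * g i = ∑ i ∈ range (r + 1), kf r i * g i := by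
    symm
    apply Finset.sum_subset
    · intro i hi
      simp only [Finset.mem_range] at hi ⊢
      omega
    · intro i _ hi
      simp only [Finset.mem_range, not_lt] at hi
      have h1 : ¬ i < r := by omega
      have h2 : ¬ i = r := by omega
      simp [kf, h1, h2]
  rw [h1, Finset.sum_range_succ]
  have h2 : ∀ i ∈ range r, kf r i * g i = (len i : ℝ) * g i := by
    intro i hi
    simp [kf, Finset.mem_range.1 hi]
  rw [Finset.sum_congr rfl h2]
  have h3 : kf r r = -∑ k ∈ range r, (len k : ℝ) := by simp [kf]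
  rw [h3]
  simp only [mul_sub, Finset.sum_sub_distrib, ← Finset.sum_mul]
  ring

omit [Fintype S] [Nonempty S] in
theorem len_pos (i : ℕ) : 0 < len i := by
  cases i with
  | zero => simp [len]
  | succ k =>
    have : WW k ≠ 0 := NeZero.ne _
    simp only [len]
    exact Nat.mul_pos (pow_pos (Nat.pos_of_ne_zero this) _) (Nat.factorial_pos _)

omit [Nonempty S] in
theorem sum_lab {j : ℕ} {h v : Equiv.Perm S} {lab : S → ℕ} (H : Lett j h v lab) (f : ℕ → ℝ) :
    ∑ x, f (lab x) = ∑ i ∈ range (j + 1), (len i : ℝ) * f i := by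
  classical
  have h1 : ∑ x, f (lab x) = ∑ i ∈ range (j + 1), ∑ x with lab x = i, f (lab x) := by
    symm
    apply Finset.sum_fiberwise_of_maps_to
    intro x _
    exact Finset.mem_range.2 (Nat.lt_succ_of_le (H.le x))
  rw [h1]
  refine Finset.sum_congr rfl fun i hi => ?_
  have h2 : ∀ x ∈ Finset.univ.filter (fun x => lab x = i), f (lab x) = f i := by
    intro x hx
    rw [(Finset.mem_filter.1 hx).2]
  rw [Finset.sum_congr rfl h2, Finset.sum_const, nsmul_eq_mul]
  congr 2
  rw [← H.card i (Nat.le_of_lt_succ (Finset.mem_range.1 hi)), Nat.card_eq_fintype_card,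
    Fintype.card_subtype]

omit [Nonempty S] in
theorem sum_kf_lab {j : ℕ} {h v : Equiv.Perm S} {lab : S → ℕ} (H : Lett j h v lab) {r : ℕ}
    (hr : r ≤ j) (g : ℕ → ℝ) :
    ∑ x, kf r (lab x) / len (lab x) * g (lab x) = ∑ i ∈ range r, (len i : ℝ) * (g i - g r) := by
  rw [sum_lab H (fun i => kf r i / len i * g i), ← kf_sum hr]
  refine Finset.sum_congr rfl fun i _ => ?_
  have : (len i : ℝ) ≠ 0 := by exact_mod_cast (len_pos i).ne'
  field_simp

theorem FF_zero_const {j : ℕ} {U : ℕ → ℝ} (hU : ∀ i, 1 ≤ i → i ≤ j → FF i U = 0) :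
    ∀ i, i ≤ j → U i = U 0 := by
  intro i
  induction i using Nat.strong_induction_on with
  | _ i ih =>
    intro hi
    rcases Nat.eq_zero_or_pos i with h0 | h0
    · rw [h0]
    have h1 := hU i h0 hi
    have h2 : FF i U = (∑ k ∈ range i, (len k : ℝ)) * (U 0 - U i) := by
      rw [FF, Finset.sum_mul]
      refine Finset.sum_congr rfl fun k hk => ?_
      have hk' := Finset.mem_range.1 hk
      rw [ih k hk' (by omega)]
    rw [h2] at h1
    have h3 : 0 < ∑ k ∈ range i, (len k : ℝ) := by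
      apply Finset.sum_pos
      · intro k _; exact_mod_cast len_pos k
      · exact ⟨0, Finset.mem_range.2 h0⟩
    rcases mul_eq_zero.1 h1 with h | h
    · exact absurd h h3.ne'
    · linarith

theorem XX_eq (B : ℕ → ℕ → ℤ) {j r s : ℕ} (hr : r ≤ j) (hs : s ≤ j) :
    ∑ i ∈ range (j + 1), ∑ l ∈ range (j + 1), kf r i * kf s l * B i l = XX B r s := by
  have h1 : ∀ i, ∑ l ∈ range (j + 1), kf r i * kf s l * (B i l : ℝ) =
      kf r i * ∑ l ∈ range s, (len l : ℝ) * ((B i l : ℝ) - B i s) := by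
    intro i
    rw [← kf_sum hs (fun l => (B i l : ℝ)), Finset.mul_sum]
    refine Finset.sum_congr rfl fun l _ => by ring
  simp only [h1]
  rw [kf_sum hr (fun i => ∑ l ∈ range s, (len l : ℝ) * ((B i l : ℝ) - B i s))]
  simp only [XX, ← Finset.sum_sub_distrib, Finset.mul_sum]
  refine Finset.sum_congr rfl fun i _ => Finset.sum_congr rfl fun l _ => ?_
  ring

/-- ALGEBRA: a plane invariant in all directions is tautological. -/
theorem algebra_final {j : ℕ} (hj : 1 ≤ j) {h v : Equiv.Perm S} {lab : S → ℕ}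
    (H : Lett j h v lab)
    (hgen : 6 ≤ Module.finrank ℝ (↥(ZO h v) ⧸ (BO h v).submoduleOf (ZO h v)))
    {P : Submodule ℝ (Pr S)} (HP : HTO h v P) : P = tautO h v := by
  classical
  by_contra hPne
  have hne : eO S ∉ P := fun he => hPne (hto_taut HP he)
  obtain ⟨ω, hω⟩ := om_quot h v
  set M := ↥(ZO h v) ⧸ (BO h v).submoduleOf (ZO h v) with hM
  let mk : ↥(ZO h v) → M := Submodule.Quotient.mk
  have hmk : ∀ x : M, ∃ y, mk y = x := fun x => Submodule.Quotient.mk_surjective _ x
  have hωm : ∀ x y, ω (mk x) (mk y) = om h v x.1 y.1 := hω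
  -- existence of A vectors
  have hA : ∀ u ∈ ZO h v, ∑ s, u.1 s = 0 → ∃ (A : S → ℝ) (U : ℕ → ℝ), IsA h v u A ∧
      ∀ x, A x = U (lab x) := by
    intro u hu hs
    obtain ⟨A, hA⟩ := isA_exists H.cyc hs
    obtain ⟨U, hU⟩ := lett_const H (f := A) (fun x hx => isA_const hu hA x (H.trans x hx))
    exact ⟨A, U, hA, hU⟩
  -- the classes U_r
  have hκ : ∀ r, r ≤ j → ∃ U, IsU h v (fun x => kf r (lab x) / len (lab x)) U ∧ U ∈ ZO h v ∧
      ∑ s, U.1 s = 0 := by
    intro r hr
    apply isU_exists H.cyc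
    have := sum_kf_lab H hr (fun _ => (1 : ℝ))
    simpa using this
  let UZ : ℕ → ↥(ZO h v) := fun r => if hr : r ≤ j then ⟨(hκ r hr).choose, (hκ r hr).choose_spec.2.1⟩
    else 0
  have hUZ : ∀ r, r ≤ j → IsU h v (fun x => kf r (lab x) / len (lab x)) (UZ r).1 ∧
      ∑ s, (UZ r).1.1 s = 0 := by
    intro r hr
    simp only [UZ, hr, dif_pos]
    exact ⟨(hκ r hr).choose_spec.1, (hκ r hr).choose_spec.2.2⟩
  have homU : ∀ (u : Pr S) (A : S → ℝ) (U : ℕ → ℝ), IsA h v u A → (∀ x, A x = U (lab x)) →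
      ∀ r, r ≤ j → om h v u (UZ r).1 = -FF r U := by
    intro u A U hA hU r hr
    rw [om_isU (hUZ r hr).1 hA]
    congr 1
    have := sum_kf_lab H hr U
    rw [FF, ← this]
    refine Finset.sum_congr rfl fun x _ => ?_
    rw [hU]
  obtain ⟨B, hB, hB1, hBom⟩ := bmat hj H
  have hXX : ∀ r s, r ≤ j → s ≤ j → om h v (UZ r).1 (UZ s).1 = XX B r s := by
    intro r s hr hs
    rw [← XX_eq B hr hs]
    apply hBom (kf r) (kf s) _ _ _ _ (hUZ r hr).1 (hUZ s hs).1
    · have := kf_sum hr (fun _ => (1 : ℝ))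
      simpa using this
    · have := kf_sum hs (fun _ => (1 : ℝ))
      simpa using this
  have eM : eO S ∈ ZO h v := eO_mem
  let Pb : Submodule ℝ M := (P.submoduleOf (ZO h v)).map (Submodule.mkQ _)
  have hPb : ∀ p ∈ Pb, ∃ u : ↥(ZO h v), u.1 ∈ P ∧ mk u = p := by
    rintro p ⟨u, hu, hup⟩
    exact ⟨u, hu, hup⟩
  have hPb' : ∀ u : ↥(ZO h v), u.1 ∈ P → mk u ∈ Pb := fun u hu => ⟨u, hu, rfl⟩
  have antiM : ∀ x y, ω x y = -ω y x := by
    intro x y
    obtain ⟨x, rfl⟩ := hmk x
    obtain ⟨y, rfl⟩ := hmk y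
    rw [hωm, hωm]
    exact om_anti x.2 y.2
  have hfin : FiniteDimensional ℝ M := by infer_instance
  refine fin_contra ω antiM ?_ (by omega) (mk ⟨eO S, eM⟩) j (fun r => mk (UZ r)) Pb ?_ ?_ ?_ ?_ ?_ ?_
  · -- nondegenerate
    intro x hx
    obtain ⟨x, rfl⟩ := hmk x
    have := om_nondeg H.cyc x.2 (fun w hw => by
      have := hx (mk ⟨w, hw⟩)
      rwa [hωm] at this)
    exact (Submodule.Quotient.mk_eq_zero _).2 this
  · -- dimension two
    obtain ⟨u, w, huw⟩ := HP.two
    obtain ⟨a, b, hol, hab, hre, him⟩ := HP.hol 1 I cross_one_I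
    have hpos := (hol_pos cross_one_I hol hab).2.2
    have hu : u ∈ P := by
      rw [huw]; exact Submodule.mem_sup_left (Submodule.subset_span (by simp))
    have hw : w ∈ P := by
      rw [huw]; exact Submodule.mem_sup_left (Submodule.subset_span (by simp))
    have hle : Pb ≤ Submodule.span ℝ {mk ⟨u, HP.le_zo hu⟩, mk ⟨w, HP.le_zo hw⟩} := by
      rintro p hp
      obtain ⟨x, hx, rfl⟩ := hPb p hp
      have hx' : x.1 ∈ P := hx
      rw [huw, Submodule.mem_sup] at hx'
      obtain ⟨y, hy, z, hz, hyz⟩ := hx'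
      rw [Submodule.mem_span_pair] at hy
      obtain ⟨α, β, hαβ⟩ := hy
      have hzz : z ∈ ZO h v := BO_le_ZO h v hz
      have e1 : x = α • ⟨u, HP.le_zo hu⟩ + β • ⟨w, HP.le_zo hw⟩ + ⟨z, hzz⟩ := by
        apply Subtype.ext
        rw [← hyz, ← hαβ]; rfl
      have e2 : mk x = α • mk ⟨u, HP.le_zo hu⟩ + β • mk ⟨w, HP.le_zo hw⟩ := by
        have e3 : mk ⟨z, hzz⟩ = 0 := (Submodule.Quotient.mk_eq_zero _).2 hz
        have e4 : mk x = α • mk ⟨u, HP.le_zo hu⟩ + β • mk ⟨w, HP.le_zo hw⟩ + mk ⟨z, hzz⟩ := by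
          rw [e1]; rfl
        rw [e4, e3, add_zero]
      rw [e2]
      exact Submodule.add_mem _ (Submodule.smul_mem _ _ (Submodule.subset_span (by simp)))
        (Submodule.smul_mem _ _ (Submodule.subset_span (by simp)))
    have h2 : Module.finrank ℝ Pb ≤ 2 := by
      refine (Submodule.finrank_mono hle).trans ?_
      have := finrank_span_le_card (R := ℝ) ({mk ⟨u, HP.le_zo hu⟩, mk ⟨w, HP.le_zo hw⟩} : Set M)
      refine this.trans ?_
      rw [Set.toFinset_card]
      have := Finset.card_le_two (a := mk ⟨u, HP.le_zo hu⟩) (b := mk ⟨w, HP.le_zo hw⟩)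
      simpa using this
    have h3 : 2 ≤ Module.finrank ℝ Pb := by
      set x : Pb := ⟨mk ⟨_, HP.le_zo hre⟩, hPb' _ hre⟩ with hx
      set y : Pb := ⟨mk ⟨_, HP.le_zo him⟩, hPb' _ him⟩ with hy
      have hxy : 0 < ω x.1 y.1 := by rw [hx, hy]; simp only [hωm]; exact hpos
      have hlin : LinearIndependent ℝ ![x, y] := by
        rw [LinearIndependent.pair_iff]
        intro s t hst
        have hst' : s • x.1 + t • y.1 = 0 := by
          have := congrArg Subtype.val hst
          simpa using this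
        have hxx : ω x.1 x.1 = 0 := by have := antiM x.1 x.1; linarith
        have hyy : ω y.1 y.1 = 0 := by have := antiM y.1 y.1; linarith
        have e1 : ω x.1 (s • x.1 + t • y.1) = 0 := by rw [hst', map_zero]
        have e2 : ω (s • x.1 + t • y.1) y.1 = 0 := by rw [hst', map_zero]; rfl
        rw [map_add, map_smul, map_smul, hxx] at e1
        rw [map_add, map_smul, map_smul, LinearMap.add_apply, LinearMap.smul_apply,
          LinearMap.smul_apply, hyy] at e2
        simp only [smul_eq_mul, mul_zero, zero_add, add_zero] at e1 e2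
        constructor
        · rcases mul_eq_zero.1 e2 with h | h
          · exact h
          · exact absurd h hxy.ne'
        · rcases mul_eq_zero.1 e1 with h | h
          · exact h
          · exact absurd h hxy.ne'
      have := hlin.fintype_card_le_finrank
      simpa using this
    exact le_antisymm h2 h3
  · intro p hp
    obtain ⟨u, hu, rfl⟩ := hPb p hp
    rw [hωm, om_eO]
    exact sum_fst_zero H.cyc HP hne hu
  · intro r _ hr
    rw [hωm, om_eO]
    exact (hUZ r hr).2
  · -- dynamics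
    intro u hu w hwe hw r hr1 hr2
    obtain ⟨u, huP, rfl⟩ := hPb u hu
    obtain ⟨w, rfl⟩ := hmk w
    rw [hωm, om_eO] at hwe
    have hw' : ∀ p ∈ P, om h v p w.1 = 0 := by
      intro p hp
      have := hw _ (hPb' ⟨p, HP.le_zo hp⟩ hp)
      rwa [hωm] at this
    obtain ⟨A, U, hAu, hU⟩ := hA u.1 u.2 (sum_fst_zero H.cyc HP hne huP)
    obtain ⟨A', V, hAw, hV⟩ := hA w.1 w.2 hwe
    rw [hωm, hωm, homU u.1 A U hAu hU r hr2, homU w.1 A' V hAw hV r hr2]
    have hGG : ∀ n : ℕ, GG (h ^ n * v) A A' = 0 := by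
      intro n
      have h1 := om_shear_tw hAu hAw n
      have h2 := om_twV_symm (u := shearN h n u.1) (shearN_mem w.2 n)
      have h3 := hto_twV (hto_pow HP n) (shearN h n u.1) (by
        rw [← shearL_pow]; exact Submodule.mem_map_of_mem huP)
      obtain ⟨p, hp, hpe⟩ := h3
      rw [shearL_pow] at hpe
      rw [← hpe, om_shearN (HP.le_zo hp) w.2, hw' p hp, neg_zero] at h2
      rw [h2] at h1
      have h4 : (orderOf (v * h ^ n) : ℝ) ≠ 0 := by
        exact_mod_cast (orderOf_pos _).ne'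
      have h5 : (orderOf (v * h ^ n) : ℝ) * GG (h ^ n * v) A A' = 0 := by linarith
      exact (mul_eq_zero.1 h5).resolve_left h4
    have hsum : ∑ x, A x = 0 := by
      have h1 := isA_sum hAu
      have h2 := hto_twV HP u.1 huP
      rw [sum_fst_zero H.cyc HP hne h2] at h1
      have h4 : (orderOf v : ℝ) ≠ 0 := by
        exact_mod_cast (orderOf_pos _).ne'
      exact (mul_eq_zero.1 h1.symm).resolve_left h4
    have hAfun : A = fun x => U (lab x) := funext hU
    have hAfun' : A' = fun x => V (lab x) := funext hV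
    have hfin := dyn_final H U V (by rw [← hAfun, hsum, zero_mul])
      (fun n => by rw [← hAfun, ← hAfun']; exact hGG n) r hr1 hr2
    linarith
  · -- kernel
    intro x hx0 hx
    obtain ⟨x, rfl⟩ := hmk x
    rw [hωm, om_eO] at hx0
    obtain ⟨A, U, hAx, hU⟩ := hA x.1 x.2 hx0
    have h1 : ∀ i, 1 ≤ i → i ≤ j → FF i U = 0 := by
      intro i hi1 hi2
      have h2 := hx i hi1 hi2
      rw [hωm, homU x.1 A U hAx hU i hi2] at h2
      linarith
    have h2 := FF_zero_const h1
    have h3 := isA_eq_const x.2 hAx (U 0) (fun y => by rw [hU, h2 _ (H.le y)])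
    refine ⟨U 0, ?_⟩
    have h4 : mk x = U 0 • mk ⟨eO S, eM⟩ := by
      have : mk x = mk (U 0 • ⟨eO S, eM⟩) := (Submodule.Quotient.eq _).2 h3
      rw [this]; rfl
    exact h4
  · -- link
    intro s hs1 hsj h0 r hsr hrj
    rw [hωm, hXX j s le_rfl hsj.le] at h0
    rw [hωm, hXX r s hrj hsj.le]
    exact link B hB hB1 j s hs1 hsj h0 r hsr hrj

end

end Pool.Agent.TP
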