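import Pool.Agent.Lib_helper53.TP.FAlg
import Pool.Agent.Lib_helper53.TP.B.TOP
import Pool.Agent.Lib_helper53.TP.B.HFL
import Pool.Agent.Lib_helper53.TP.B.HSB
import Pool.Agent.Lib_helper53.TP.B.INT
import Pool.Agent.Lib_helper53.TP.B.FL1
import Pool.Agent.Lib_helper53.TP.B.HGT
import Pool.Agent.Lib_helper53.TP.B.UHR
import Pool.Agent.Lib_helper53.TP.B.FL2
import Pool.Agent.Lib_helper53.TP.B.IDN
import Pool.Agent.Lib_helper53.TP.B.ONE
import Pool.Agent.Lib_helper53.TP.B.EXP
import Pool.Agent.Lib_helper53.TP.B.LET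
import Pool.Agent.Lib_helper53.TP.B.GEN
import Pool.Agent.Lib_helper53.TP.B.TRA
import Pool.Agent.Lib_helper53.TP.B.PTA
import Pool.Agent.Lib_helper53.TP.B.TAU
import Pool.Agent.Lib_helper53.TP.B.TIV

namespace Pool.Agent.TP

open Set Complex Finset

theorem finrank_conn {x y : PS} (h : Conn x y) :
    Module.finrank ℝ (H1 ℝ x.c) = Module.finrank ℝ (H1 ℝ y.c) := by
  induction h with
  | rel x y hs =>
    cases hs with
    | iso x y h => exact finrank_iso h
    | flip D fin ne c c' v v' ok ok' d h => exact finrank_flip ok ok' h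
    | sub x y d θ ι p q m m' k k' h => exact finrank_sub x.ok y.ok h
    | path D fin ne c γ hγ ok => rfl
  | refl x => rfl
  | symm x y _ ih => exact ih.symm
  | trans x y z _ _ ih1 ih2 => exact ih1.trans ih2

/-- Every surface is connected to an origami. -/
theorem to_origami (x : PS) :
    ∃ (S : Type) (_ : Finite S) (_ : Nonempty S) (h v : Equiv.Perm S) (tr : Tr h v),
      Conn x (ori h v tr) := by
  obtain ⟨x1, c1, h1⟩ := integral_approx x
  obtain ⟨x2, c2, h2, h2'⟩ := fl1 x1 h1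
  obtain ⟨x3, c3, h3⟩ := hgt x2 h2 h2'
  obtain ⟨x4, c4, h4, h4'⟩ := unit_hor x3 h3
  obtain ⟨x5, c5, h5⟩ := fl2 x4 h4 h4'
  obtain ⟨S, i1, i2, h, v, tr, c6⟩ := idn x5 h5
  exact ⟨S, i1, i2, h, v, tr, c1.trans (c2.trans (c3.trans (c4.trans (c5.trans c6))))⟩

/-- Every surface of genus at least three is connected to a one-row origami with hierarchical
letters. -/
theorem to_letters (x : PS) (hx : 6 ≤ Module.finrank ℝ (H1 ℝ x.c)) :
    ∃ (S : Type) (_ : Finite S) (_ : Nonempty S) (h v : Equiv.Perm S) (tr : Tr h v) (j : ℕ)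
      (lab : S → ℕ), 1 ≤ j ∧ Lett j h v lab ∧ Conn x (ori h v tr) := by
  obtain ⟨S, i1, i2, h, v, tr, c1⟩ := to_origami x
  obtain ⟨h', v', tr', cyc, c2⟩ := one_row h v tr
  have hr : 6 ≤ Module.finrank ℝ (H1 ℝ (rComb h' v' tr')) := by
    have := finrank_conn (c1.trans c2)
    rw [this] at hx
    exact hx
  rw [finrank_rComb] at hr
  haveI := Fintype.ofFinite S
  have hcard : 2 ≤ Fintype.card S := by
    by_contra hlt
    have h1 : Module.finrank ℝ (↥(ZO h' v') ⧸ (BO h' v').submoduleOf (ZO h' v')) ≤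
        Module.finrank ℝ ↥(ZO h' v') := Submodule.finrank_quotient_le _
    have h2 : Module.finrank ℝ ↥(ZO h' v') ≤ Module.finrank ℝ (Pr S) := Submodule.finrank_le _
    have h3 : Module.finrank ℝ (Pr S) = Fintype.card S + Fintype.card S := by
      rw [Module.finrank_prod, Module.finrank_fintype_fun_eq_card]
    omega
  obtain ⟨j, hj⟩ : ∃ j, Fintype.card S = j + 1 := ⟨Fintype.card S - 1, by omega⟩
  have e : S ≃ Fin (j + 1) := Fintype.equivFinOfCardEq hj
  obtain ⟨S', i1', i2', h2, v2, tr2, lab, cyc2, hcard2, hfirst, htr, c3⟩ :=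
    expand h' v' tr' cyc (fun s => len (e s)) (fun s => len_pos _)
  have hj1 : 1 ≤ j := by omega
  refine ⟨S', i1', i2', h2, v2, tr2, j, fun x => (fun y => ((e (lab y)).val)) (v2 x), hj1, ?_,
    c1.trans (c2.trans c3)⟩
  have hinj : ∀ x y : S', (e (lab x)).val = (e (lab y)).val ↔ lab x = lab y := by
    intro x y
    rw [← Fin.ext_iff, e.apply_eq_iff_eq]
  apply lett_of_expand j hj1 h2 v2 (fun y => ((e (lab y)).val)) cyc2
  · intro x; exact Nat.le_of_lt_succ (e (lab x)).isLt
  · intro i hi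
    have h1 := hcard2 (e.symm ⟨i, Nat.lt_succ_of_le hi⟩)
    simp only [Equiv.apply_symm_apply] at h1
    rw [← h1]
    apply Nat.card_congr
    apply Equiv.subtypeEquivRight
    intro x
    rw [Equiv.eq_symm_apply]
    exact ⟨fun h => Fin.ext h, fun h => congrArg Fin.val h⟩
  · intro x y hxy hx hy
    simp only [ne_eq, hinj] at hxy hx hy
    exact hfirst x y hxy hx hy
  · intro x hx
    rw [hinj] at hx
    exact htr x hx

/-- The main theorem: every component of every stratum in genus at least three contains a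
translation surface whose only Hodge-Teichmueller plane is the tautological one. -/
theorem main_theorem (x : Surf) (hg : 3 ≤ genus x.comb) :
    ∃ y : Surf, (Quot.mk Elem y : Moduli) ∈ connectedComponent (Quot.mk Elem x : Moduli) ∧
      SquareTiled y ∧ OnlyTaut y := by
  have hx : 6 ≤ Module.finrank ℝ (H1 ℝ x.ps.c) := by
    have : 3 ≤ Module.finrank ℝ (H1 ℝ x.comb) / 2 := hg
    change 6 ≤ Module.finrank ℝ (H1 ℝ x.comb)
    omega
  obtain ⟨S, i1, i2, h, v, tr, j, lab, hj, H, c1⟩ := to_letters x.ps hx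
  have hr : 6 ≤ Module.finrank ℝ (H1 ℝ (rComb h v tr)) := by
    have := finrank_conn c1
    rw [this] at hx
    exact hx
  rw [finrank_rComb] at hr
  obtain ⟨z, ⟨t, ht, hiso⟩, c2⟩ := top_norm (ori h v tr)
  refine ⟨z, top_component x z (c1.trans c2), ?_, ?_⟩
  · obtain ⟨e, _, _, he⟩ := hiso
    refine ⟨t, ht, fun d => ?_⟩
    obtain ⟨d0, rfl⟩ := e.surjective d
    rw [he]
    have hv : ∃ m n : ℤ, (ori h v tr).v d0 = (m : ℂ) + (n : ℂ) * I := by
      obtain ⟨s, k⟩ := d0
      change ∃ m n : ℤ, vecAB 1 I (s, k) = _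
      fin_cases k
      · exact ⟨1, 0, by simp [vecAB]⟩
      · exact ⟨0, 1, by simp [vecAB]⟩
      · exact ⟨-1, -1, by simp [vecAB]; ring⟩
      · exact ⟨1, 1, by simp [vecAB]⟩
      · exact ⟨-1, 0, by simp [vecAB]⟩
      · exact ⟨0, -1, by simp [vecAB]⟩
    obtain ⟨m, n, hmn⟩ := hv
    refine ⟨m, n, ?_⟩
    change (t : ℂ) * (ori h v tr).v d0 = _
    rw [hmn]
  have ok : IsTS (rComb h v tr) (fun d => (t : ℂ) * vecAB 1 I d) := by
    have h0 := vecAB_ok h v tr cross_one_I
    refine ⟨fun d => ?_, fun d => ?_, fun d => ?_⟩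
    · rw [h0.opp_neg d]; ring
    · have := h0.sum_zero d
      linear_combination (t : ℂ) * this
    · have := h0.pos d
      have e1 : cross ((t : ℂ) * vecAB 1 I d) ((t : ℂ) * vecAB 1 I ((rComb h v tr).next d)) =
          t * t * cross (vecAB 1 I d) (vecAB 1 I ((rComb h v tr).next d)) := by
        simp [cross]; ring
      rw [e1]
      exact mul_pos (mul_pos ht ht) this
  haveI := Fintype.ofFinite S
  exact onlyTaut_iso ok z.ok hiso fun P =>
    ⟨fun hP => taut_of_tautO tr ht ok P (algebra_final hj H hr (isHT_hto tr ht P hP)),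
      fun hP => by rw [hP]; exact isHT_taut tr ht ok⟩

end Pool.Agent.TP
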