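import Pool.Agent.Lib_helper53.TP.Defs

/-!
# Cohomology and Hodge-Teichmueller planes (definitions used in the final statement)
-/

namespace Pool.Agent.HTP

open Set Pool.Agent.TP

section
variable (𝕜 : Type) [Field 𝕜] {D : Type} (c : Comb D)

/-- Coboundaries: `f d` is the value of a function of the vertices at the origin of the dart
`d`. -/
def B1 : Submodule 𝕜 (D → 𝕜) where
  carrier := {u | ∃ f : D → 𝕜, (∀ d, f (c.opp d) = f (c.next d)) ∧ ∀ d, u d = f (c.next d) - f d}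
  add_mem' := by
    rintro a b ⟨f, h1, h2⟩ ⟨g, h3, h4⟩
    refine ⟨f + g, fun d => ?_, fun d => ?_⟩
    · simp only [Pi.add_apply, h1 d, h3 d]
    · simp only [Pi.add_apply, h2 d, h4 d]; ring
  zero_mem' := ⟨0, by simp, by simp⟩
  smul_mem' := by
    rintro r a ⟨f, h1, h2⟩
    refine ⟨r • f, fun d => ?_, fun d => ?_⟩
    · simp only [Pi.smul_apply, h1 d]
    · simp only [Pi.smul_apply, smul_eq_mul, h2 d]; ring

/-- The first cohomology group `H^1(M, 𝕜)`: cocycles modulo coboundaries. -/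
def H1 : Type := (Z1 𝕜 c) ⧸ (B1 𝕜 c).submoduleOf (Z1 𝕜 c)

noncomputable instance : AddCommGroup (H1 𝕜 c) :=
  Submodule.Quotient.addCommGroup ((B1 𝕜 c).submoduleOf (Z1 𝕜 c))

noncomputable instance : Module 𝕜 (H1 𝕜 c) :=
  Submodule.Quotient.module ((B1 𝕜 c).submoduleOf (Z1 𝕜 c))

variable {𝕜 c} in
/-- The cohomology class of a cocycle. -/
noncomputable def cls (u : Z1 𝕜 c) : H1 𝕜 c := Submodule.Quotient.mk u

end

/-- The genus. -/
noncomputable def genus {D : Type} (c : Comb D) : ℕ := Module.finrank ℝ (H1 ℝ c) / 2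

section
variable {D : Type} (c : Comb D) (v : D → ℂ)

/-- The space `H^{1,0}` of classes of holomorphic one-forms in `H^1(M, ℂ)`. -/
noncomputable def H10 : Submodule ℂ (H1 ℂ c) where
  carrier := {x | ∃ u : Z1 ℂ c, IsHol c v u.1 ∧ cls u = x}
  add_mem' := by
    rintro _ _ ⟨u, hu, rfl⟩ ⟨w, hw, rfl⟩
    exact ⟨u + w, IsHol.add hu hw, rfl⟩
  zero_mem' := ⟨0, IsHol.zero c v, rfl⟩
  smul_mem' := by
    rintro r _ ⟨u, hu, rfl⟩
    exact ⟨r • u, IsHol.smul r hu, rfl⟩

/-- The complexification `P ⊗ ℂ` of a subspace of `H^1(M, ℝ)`, inside `H^1(M, ℂ)`: the complex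
span of the elements of `P`. -/
noncomputable def cplx {c : Comb D} (P : Submodule ℝ (H1 ℝ c)) : Submodule ℂ (H1 ℂ c) :=
  Submodule.span ℂ {x | ∃ u : Z1 ℝ c, cls u ∈ P ∧ x = cls (toC u)}

/-- `P` is a Hodge-Teichmueller plane of the surface `(c, v)`. -/
def IsHT (P : Submodule ℝ (H1 ℝ c)) : Prop :=
  Module.finrank ℝ P = 2 ∧ ∀ g : Matrix.SpecialLinearGroup (Fin 2) ℝ,
    Module.finrank ℂ (H10 c (fun d => act g (v d)) ⊓ cplx P : Submodule ℂ (H1 ℂ c)) = 1

variable {c v} in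
/-- The tautological plane. -/
noncomputable def taut (h : IsTS c v) : Submodule ℝ (H1 ℝ c) :=
  Submodule.span ℝ {cls (reZ h), cls (imZ h)}

end

/-- The tautological plane is the only Hodge-Teichmueller plane of `y`. -/
def OnlyTaut (y : Surf) : Prop :=
  ∀ P : Submodule ℝ (H1 ℝ y.comb), IsHT y.comb y.vec P ↔ P = taut y.ok

end Pool.Agent.HTP
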