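import Pool.Agent.Lib_helper53.TP.Alg

/-!
# Definitions used in the statements of the blocks
-/

namespace Pool.Agent.TP

open Set Complex Finset

/-! ## FLP -/


/-! ## MFL (cites FLP) -/

open Classical in
/-- The combinatorics after flipping all the darts of `E`. -/
noncomputable def mNext {D : Type} (c : Comb D) (E : Set D) (x : D) : D :=
  if x ∈ E then c.next (c.next x)
  else if c.next (c.next x) ∈ E then c.opp (c.next (c.next x))
  else if c.next x ∈ E then c.next (c.opp (c.next x))
  else c.next x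

open Classical in
/-- The edge vectors after flipping all the darts of `E`. -/
noncomputable def mVec {D : Type} (c : Comb D) (v : D → ℂ) (E : Set D) (x : D) : ℂ :=
  if x ∈ E then -(v (c.next (c.next x)) + v (c.next (c.opp x))) else v x


/-! ## SBE -/



/-! ## ARF, ARS: areas -/



/-! ## TOP: normalised surfaces and components (cites ARF, ARS) -/

theorem Surf.ne (x : Surf) : Nonempty (Fin x.1.1) := by
  obtain ⟨⟨n, c⟩, v, hv, ha⟩ := x
  rcases Nat.eq_zero_or_pos n with h | h
  · subst h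
    simp [area] at ha
  · exact ⟨⟨0, h⟩⟩

/-- A normalised surface as a surface. -/
def Surf.ps (x : Surf) : PS := ⟨Fin x.1.1, inferInstance, x.ne, x.comb, x.vec, x.ok⟩



/-! ## HFL, HSB: invariance of the genus -/




/-! ## From an arbitrary surface to an origami -/







/-! ## Moves between origamis -/




/-- Elementary moves between pairs of permutations: twist of a set of rows, twist of a set of
columns. -/
def OMove {S : Type} (p q : Equiv.Perm S × Equiv.Perm S) : Prop :=
  (q.1 = p.1 ∧ ∃ R : Set S, (∀ s, p.1 s ∈ R ↔ s ∈ R) ∧ (∀ s ∈ R, q.2 s = p.2 (p.1 s)) ∧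
    ∀ s ∉ R, q.2 s = p.2 s) ∨
  (q.2 = p.2 ∧ ∃ C : Set S, (∀ s, p.2 s ∈ C ↔ s ∈ C) ∧ (∀ s ∈ C, q.1 s = p.1 (p.2.symm s)) ∧
    ∀ s ∉ C, q.1 s = p.1 s)





/-! ## Analysis -/




/-- The plus-shaped region: the open parallelogram with its four neighbours. -/
def plus (A B : ℂ) : Set ℂ := {z | ∃ x y : ℝ, z = x * A + y * B ∧
  ((0 < x ∧ x < 1 ∧ -1 < y ∧ y < 2) ∨ (-1 < x ∧ x < 2 ∧ 0 < y ∧ y < 1))}



/-! ## The intersection form -/

















/-! ## Between `H1` of the triangulation and pairs -/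

/-- The subspace of pairs corresponding to a subspace of `H1`. -/
def PO {S : Type} {h v : Equiv.Perm S} {tr : Tr h v} (P : Submodule ℝ (H1 ℝ (rComb h v tr))) :
    Submodule ℝ (Pr S) where
  carrier := {u | ∃ w : Z1 ℝ (rComb h v tr), (B1 ℝ (rComb h v tr)).mkQ w ∈ P ∧
    (∀ s, u.1 s = w.1 (s, 0)) ∧ ∀ s, u.2 s = -w.1 (s, 5)}
  add_mem' := by
    rintro u u' ⟨w, h1, h2, h3⟩ ⟨w', g1, g2, g3⟩
    refine ⟨w + w', by rw [map_add]; exact P.add_mem h1 g1, fun s => ?_, fun s => ?_⟩
    · simp [h2, g2]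
    · simp [h3, g3]; ring
  zero_mem' := ⟨0, by rw [map_zero]; exact P.zero_mem, by simp, by simp⟩
  smul_mem' := by
    rintro r u ⟨w, h1, h2, h3⟩
    refine ⟨r • w, by rw [map_smul]; exact P.smul_mem r h1, fun s => ?_, fun s => ?_⟩
    · simp [h2]
    · simp [h3]






/-! ## The vectors `A` (one row) -/












/-- The form on the `κ_r`. -/
noncomputable def XX (B : ℕ → ℕ → ℤ) (r s : ℕ) : ℝ :=
  ∑ i ∈ range r, ∑ k ∈ range s, (len i : ℝ) * len k * (B i k - B r k - B i s + B r s)



/-! ## Dynamics -/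










end Pool.Agent.TP
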